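import Pool.Agent.H46.Wal4

namespace Pool.Agent.Results.MP_c47ae4_an.Bdd

open MeasureTheory Finset Pool.Agent.H46.Wal

/-- `l_n = ∑_{k=1}^n 1/k` -/
noncomputable def l (n : ℕ) : ℝ := ∑ k ∈ Icc 1 n, 1 / (k : ℝ)

/-- the Riesz logarithmic means `R_n f` -/
noncomputable def R (n : ℕ) (f : ℕ → G → ℂ) (x : G) : ℂ :=
  1 / (l n : ℂ) * ∑ k ∈ Icc 1 n, SC k f x / k

theorem result (p : ℝ) (h0 : 0 < p) (h1 : p ≤ 1) :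
    (∃ C : ℝ, ∀ f : ℕ → G → ℂ, Martingale f F mu →
      ∀ n : ℕ, lpC p (R (2 ^ n) f) ≤ ENNReal.ofReal C * hpC p f) ∧
    ∀ f : ℕ → G → ℂ, Martingale f F mu → hpC p f < ⊤ → ⨆ n : ℕ, lpC p (R (2 ^ n) f) < ⊤ := by
  obtain ⟨C, hC⟩ := riesz h0 h1
  exact ⟨⟨C, hC⟩, fun f hf hp => lt_of_le_of_lt (iSup_le (hC f hf))
    (ENNReal.mul_lt_top ENNReal.ofReal_lt_top hp)⟩

end Pool.Agent.Results.MP_c47ae4_an.Bdd
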